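import Mathlib
import Pool.Agent.Lib_helper83.GoddynDefs
import Pool.Agent.Lib_helper83.GoddynMultiple

set_option autoImplicit false

namespace Pool.Agent.Results.MP_5dc923_co.AnyThreshold

open Pool.Agent.Lib_helper83.Goddyn

/-- There is a fixed bridgeless cubic graph which, for every threshold `N`, has an admissible
eulerian weight with all values at least `N` and no faithful circuit cover. -/
theorem result : ∃ (V : Type) (_ : Fintype V) (G : SimpleGraph V), Bridgeless G ∧
    (∀ v : V, (G.neighborSet v).ncard = 3) ∧
    ∀ N : ℕ, ∃ w : Sym2 V → ℕ, (∀ a b : V, G.Adj a b → N ≤ w s(a, b)) ∧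
      EulerianWeight G w ∧ AdmissibleWeight G w ∧ ¬ HasFaithfulCircuitCover G w :=
  main

end Pool.Agent.Results.MP_5dc923_co.AnyThreshold
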